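import Pool.Agent.H14R3.KK.Defs
import Pool.Agent.H14R3.KK.S.PAIRS

/-! Task DEG of project KK (MP_d47e08_pr). -/

set_option autoImplicit false
open MeasureTheory ProbabilityTheory Filter Topology

namespace KK14

theorem DEG (n q l : ℕ) (I : Sub n l) :
    (∑ K : Sub n l, if (symmDiff I.1 K.1).card = 2 * q then (1 : ℝ) else 0) =
      (l.choose q : ℝ) * ((n - l).choose q : ℝ) := by
  have h := PAIRS n q l I (fun _ => (1 : ℝ))
  rw [h]
  simp only [Finset.sum_const, nsmul_eq_mul, mul_one]
  rw [Finset.card_powersetCard, Finset.card_powersetCard, Finset.card_compl, Fintype.card_fin, I.2]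

end KK14
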